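import Mathlib
import Pool.Agent.H19.Ord.Main
import Pool.Agent.H19.Ord.Mono

/-!
# Varieties with big monodromy have dense ordinary reduction

Let `k` be an algebraically closed field of characteristic `0` and `X : f = 0` a quasismooth weighted
homogeneous hypersurface of weighted degree `m` over `k`: for example a smooth plane curve, a curve
`y ^ a = f(x)`, a smooth surface in `P³`, a surface `w ^ a = f(x, y, z)`. It is defined over a finitely
generated ring `B ⊂ k` with derivations `D_j` (a basis of the derivations of its field of fractions, times
a denominator): it is a member of a family over `Spec B`. Let `H` be the primitive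
cohomology of `X` in the middle degree `d`. If the variables have weights `χ v ∈ G` for which `f` is invariant,
`H` is the sum of its eigenspaces `H_c`, `c ∈ G` (for `y ^ a = f(x)`: `G = ℤ/a`; one may take `G = 0`).
It is generated by the classes of the forms `x ^ g Ω / (x_1 ⋯ x_r f ^ k)` (`Forms`), with Griffiths' relations;
the forms with `k = 1` (`Exps`) are the regular forms of degree `d` on `X`.

The periods of these forms are functions `π(k, g)` with values in a field `E` with derivations, for
example the field of the meromorphic functions on the universal covering of an open subset of
`Spec B (ℂ)`; they satisfy Griffiths' relations and differentiation under the integral sign (`IsPeriod`).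
The fundamental group, or any group of automorphisms of `E` over `B` and over the constants, acts by
matrices with constant entries on a basis of the solutions with the character `c` (`monodromy`).
`BigMonodromy` means: for each `c` such that `H_c` has a regular form, `H_c` consists of regular forms
or the Zariski closure of the monodromy group on `H_c` contains `SL(H_c)`, `Sp(H_c)` or `O(H_c)`, or
`SO(H_c)` if there are less than `dim H_c / 2` regular forms in `H_c`.

**Theorem.** Let `X_i` be finitely many such hypersurfaces with big monodromy over `B`, where the groups `G`
are killed by `e`. For every finitely generated ring `A ⊂ k` over which the equations of the `X_i`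
are defined, every `c ≠ 0` in `A` and every large prime number `p ≡ 1 mod e` there is a closed point of
`Spec A` of characteristic `p` with `c ≠ 0` at which the Hasse-Witt matrices of all the `X_i` are invertible.

The Hasse-Witt matrix is the matrix of Frobenius on `H^d(X_s, O)`. A smooth projective curve is ordinary if
and only if it is invertible, and the same is true for smooth surfaces with `H^1(O) = 0` (ordinary in the
sense of Bloch and Kato). So all families of smooth plane curves, of hyperelliptic curves, of cyclic coverings
of the line and of surfaces in `P³` with big monodromy, and the products of their members, have dense ordinary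
reduction. By Picard and Lefschetz the monodromy group of each Lefschetz pencil of plane
curves is Zariski dense in the symplectic group, and that of a Lefschetz pencil of surfaces in `P³` of degree at
least `4` is Zariski dense in the orthogonal group; so the generic members of all these pencils over the
algebraic numbers have dense ordinary reduction. No degenerate member is supposed to be special, and the
number of parameters of the family is arbitrary.

Proof. (1) `Good.lean`-`Main.lean`: in characteristic `p` the functions `- c_u / (p - k)!`, with `c_u` the
coefficient of `x ^ (p u)` in `x ^ g f ^ (p - k)`, are period functions with values in the residue fields of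
good primes of `B` over `p`, and on the regular forms they give the Hasse-Witt matrix. They are
independent by the reduction of the order of the poles. If the Hasse-Witt matrix were singular for
infinitely many `p`, an ultraproduct would have `r_c` independent period functions with the character `c`, in
a differential field `F` of characteristic `0`, whose `r_c × r_c` matrix on the regular forms is singular.
(2) `Mono.lean`: in a common field extension `Ω` of `E` and `F` they are combinations of the basis `π` with
a matrix `C` of rank `r_c`. The determinant and all its derivatives vanish, these are multilinear
expressions in the periods, and a space of vectors stable under derivations is spanned by its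
constant vectors (`Const.lean`); so `det (P g C) = 0` for all `g` in the monodromy group, where `P` are the periods
of the regular forms. (3) `BigMove.lean`, `Zar.lean`: then it is zero for all `g` in the Zariski closure over
`Ω`, and a product of transvections or reflections in vectors outside of `im C + ker P` moves the image of
`C` away from the kernel of `P`, a contradiction.
-/

set_option autoImplicit false

namespace Pool.Agent.Results.MP_adc574_ag.BigMonodromy

open MvPolynomial Pool.Agent.H19.Ord

universe u

/-- **Hypersurfaces with big monodromy have dense ordinary reduction.** -/
theorem result {k : Type u} [Field k] [CharZero k] [IsAlgClosed k]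
    -- finitely many quasismooth weighted homogeneous equations
    {ι : Type} [Finite ι] (V : ι → Type) [∀ i, Fintype (V i)] [∀ i, DecidableEq (V i)]
    (W : ∀ i, V i → ℕ) (hW : ∀ i v, 0 < W i v) (m : ι → ℕ) (hm : ∀ i, 1 ≤ m i)
    (f : ∀ i, MvPolynomial (V i) k) (hf : ∀ i, ∀ a ∈ (f i).support, ∑ v, W i v * a v = m i)
    (hs : ∀ i, ∀ x : V i → k, (∀ v, eval x (pderiv v (f i)) = 0) → x = 0)
    -- the symmetries: weights in a group of exponent `e`
    (G : ι → Type) [∀ i, AddCommGroup (G i)] (χ : ∀ i, V i → G i)
    (hχ : ∀ i, ∀ a ∈ (f i).support, gdeg (χ i) a = 0) (e : ℕ) (he : ∀ i (c : G i), e • c = 0)
    -- a finitely generated ring with derivations, over which the monodromy is big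
    (B : Subalgebra ℤ k) (hB : B.FG) {J : Type} (D : J → Derivation ℤ B B)
    (f₀ : ∀ i, MvPolynomial (V i) B) (hf₀ : ∀ i, map (algebraMap B k) (f₀ i) = f i)
    (hbig : ∀ i, Pool.Agent.H19.Ord.BigMonodromy (W i) (m i) (f₀ i) D (χ i))
    -- a finitely generated ring over which the hypersurfaces are defined, a nonempty open set
    (A : Subalgebra ℤ k) (hA : A.FG) (F : ∀ i, MvPolynomial (V i) A)
    (hF : ∀ i, map (algebraMap A k) (F i) = f i) (c : A) (hc : c ≠ 0) :
    ∃ N : ℕ, ∀ p : ℕ, N ≤ p → p.Prime → p ≡ 1 [MOD e] →
      ∃ M : Ideal A, M.IsMaximal ∧ (p : A) ∈ M ∧ c ∉ M ∧
        ∀ i, (hasseWitt (W i) (m i) p (map (Ideal.Quotient.mk M) (F i))).det ≠ 0 := by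
  have hBi : Function.Injective (algebraMap B k) := Subtype.val_injective
  have hsupp : ∀ i, (f₀ i).support = (f i).support := fun i => by
    rw [← hf₀ i, support_map_of_injective _ hBi]
  exact final V W hW m hm f hf hs G χ hχ e he B hB D f₀ hf₀
    (fun i => nonvanishing_of_big (W i) (m i) (f₀ i) (fun a ha => hf i a (hsupp i ▸ ha)) D (χ i)
      (hbig i)) A hA F hF c hc

end Pool.Agent.Results.MP_adc574_ag.BigMonodromy
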