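import Mathlib
import Pool.Agent.H19.Opp.Main

/-!
# Hypersurfaces of every dimension with big monodromy have dense ordinary reduction

Let `k` be an algebraically closed field of characteristic `0` and `X : f = 0` a quasismooth weighted
homogeneous hypersurface of weighted degree `m` over `k`, of any dimension `d`: for example a smooth
hypersurface in a projective space, or a covering `y ^ a = f(x)` of a projective space. It is defined over a
finitely generated ring `B ⊂ k` with derivations `D_j`: it is a member of a family over `Spec B`. Let
`H` be the primitive cohomology of `X` in the middle degree `d`. If the variables have weights `χ v ∈ G`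
for which `f` is invariant, `H` is the sum of its eigenspaces `H_c`, `c ∈ G` (one may take `G = 0`).

The cohomology `H` is generated by the classes of the forms `x ^ g Ω / (x_1 ⋯ x_r f ^ k)` with `k ≥ 1`
(`Forms`), with the relations of Griffiths; the symbol `(k, g)` stands for this form times
`(-1) ^ (k - 1) (k - 1)!`. The forms with poles of order at most `j` generate the step `P_j = F^(d + 1 - j)` of the
Hodge filtration. In characteristic `p` the same symbols and relations (`exact`; they are the
relations of the twisted de Rham complex `d + d(y f)`, `(k, g) = x ^ g y ^ k`) define the de Rham
cohomology of the reduction, and the forms with `k > p j` generate the step `W_j` of the conjugate filtration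
which is complementary to `P_j`: by Cartier, it is generated by the `x ^ (p u) y ^ (p l)` with `l > j`, where
the `x ^ u` are a basis of the Jacobian ring, so that the dimensions of `P_j` and `W_j` add up to that of
`H`. (The Frobenius maps `x ^ u y ^ l` to `p ^ (d + 1 - l) x ^ (p u) y ^ (p l)` plus terms with more poles;
see Dwork, Katz and Mazur.) A smooth hypersurface is ordinary in the sense of Bloch and Kato if and only if
these filtrations are opposite: `H = P_j ⊕ W_j`, that is `H = P_j + W_j` for all `j` (`Opposite`).

The periods of the forms are functions `π(k, g)` with values in a field `E` with derivations, for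
example the field of the meromorphic functions on the universal covering of an open subset of
`Spec B (ℂ)`; they satisfy Griffiths' relations and differentiation under the integral sign (`IsPeriod`).
The fundamental group, or any group of automorphisms of `E` over `B` and over the constants, acts by
matrices with constant entries on a basis of the solutions with the character `c` (`monodromy`).
`BigMonodromy` means: for each `c` the eigenspace `H_c` has only one nonzero Hodge number, or the Zariski
closure of the monodromy group on `H_c` contains `SL(H_c)`, `Sp(H_c)` or `O(H_c)`; the dimension of `H_c` is
the sum of the Hodge numbers, which are given by the Jacobian ring (Griffiths).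

**Theorem.** Let `X_i` be finitely many such hypersurfaces with big monodromy over `B`, where the groups `G`
are killed by `e`. For every finitely generated ring `A ⊂ k` over which the equations of the `X_i`
are defined, every `c ≠ 0` in `A` and every large prime number `p ≡ 1 mod e` there is a closed point of
`Spec A` of characteristic `p` with `c ≠ 0` at which for all `X_i` the Hodge and the conjugate
filtration are opposite, and the Hasse-Witt matrices are invertible.

So all families of smooth hypersurfaces with big monodromy, and the products of their members, have
dense ordinary reduction. By Picard and Lefschetz the monodromy group of each Lefschetz pencil of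
hypersurfaces of odd dimension is Zariski dense in the symplectic group, and if the dimension is even it is
Zariski dense in the orthogonal group (or finite, and then `H` has only one Hodge number, as for
quadrics and cubic surfaces); so the generic members of all these pencils over the algebraic numbers have
dense ordinary reduction. No degenerate member is supposed to be special, and the number of parameters of
the family is arbitrary.

Proof. (1) `Car.lean`, `Raise.lean`: let `K` be a field of characteristic `p` and `Φ` the space of the linear
functionals on `H_c` which kill the forms with `k > p j`. By Euler's relation and by the relations in the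
directions `x_i ∂_i` such a functional is determined by its values at `x ^ (p u) y ^ (p l)`, `l ≤ j`. Let `T` be
its restriction to the highest level `k = p l`. Euler's relation gives
`T(x ^ g f ^ r) = r! ψ(p l - r, g)`, and the relation at the level `p (l - 1)` gives
`T(x ^ (p h) f ^ (p - 1) x_i ∂_i f) = 0`. By Cartier the part of `f ^ (p - 1) x_i ∂_i f` with exponents divisible
by `p` is `(x_i ∂_i f) ^ p`. So `x ^ u ↦ T(x ^ (p u))` kills the Jacobian ideal, and the dimension of `Φ` is
at most the number of the generators of the Jacobian ring of degree at most `j`, the dimension of `P_j`.
(2) `Sol.lean`: `Φ` is stable under the derivations (Gauss-Manin). (3) `Lim.lean`: if `H ≠ P_j + W_j` at generic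
points of infinitely many characteristics, there are nonzero elements of `Φ` which kill `P_j`, and an ultraproduct
gives over a differential field `F` of characteristic `0` a stable space `Φ` of functionals of dimension at
most `dim P_j` with a nonzero element which kills `P_j`. (4) `Mono.lean`: in a common field extension of `E`
and `F` the space `Φ` is a space of combinations of the periods. The maximal minors of `Φ` on forms in `P_j`,
and all their derivatives, vanish, and so they vanish for all transforms of the periods by the monodromy
group, and by its Zariski closure. But transvections or reflections move `Φ` to a space which does not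
meet the annihilator of `P_j`, a contradiction. (5) `Main.lean`: the passage to closed points.
-/

set_option autoImplicit false

namespace Pool.Agent.Results.MP_adc574_ag.OrdinaryHypersurfaces

open MvPolynomial Pool.Agent.H19.Ord Pool.Agent.H19.Opp

universe u

/-- **Hypersurfaces with big monodromy have dense ordinary reduction.** -/
theorem result {k : Type u} [Field k] [CharZero k] [IsAlgClosed k]
    -- finitely many quasismooth weighted homogeneous equations
    {ι : Type} [Finite ι] (V : ι → Type) [∀ i, Fintype (V i)] [∀ i, DecidableEq (V i)]
    (W : ∀ i, V i → ℕ) (hW : ∀ i v, 0 < W i v) (m : ι → ℕ) (hm : ∀ i, 1 ≤ m i)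
    (f : ∀ i, MvPolynomial (V i) k) (hf : ∀ i, ∀ a ∈ (f i).support, ∑ v, W i v * a v = m i)
    (hs : ∀ i, ∀ x : V i → k, (∀ v, eval x (pderiv v (f i)) = 0) → x = 0)
    -- the symmetries: weights in a group of exponent `e`
    (G : ι → Type) [∀ i, AddCommGroup (G i)] (χ : ∀ i, V i → G i)
    (hχ : ∀ i, ∀ a ∈ (f i).support, gdeg (χ i) a = 0) (e : ℕ) (he : ∀ i (c : G i), e • c = 0)
    -- a finitely generated ring with derivations, over which the monodromy is big
    (B : Subalgebra ℤ k) (hB : B.FG) {J : Type} (D : J → Derivation ℤ B B)
    (f₀ : ∀ i, MvPolynomial (V i) B) (hf₀ : ∀ i, map (algebraMap B k) (f₀ i) = f i)
    (hbig : ∀ i, Pool.Agent.H19.Opp.BigMonodromy (W i) (m i) (f₀ i) D (χ i))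
    -- a finitely generated ring over which the hypersurfaces are defined, a nonempty open set
    (A : Subalgebra ℤ k) (hA : A.FG) (F : ∀ i, MvPolynomial (V i) A)
    (hF : ∀ i, map (algebraMap A k) (F i) = f i) (c : A) (hc : c ≠ 0) :
    ∃ N : ℕ, ∀ p : ℕ, N ≤ p → p.Prime → p ≡ 1 [MOD e] →
      ∃ M : Ideal A, M.IsMaximal ∧ (p : A) ∈ M ∧ c ∉ M ∧
        ∀ i, Opposite (W i) (m i) (map (Ideal.Quotient.mk M) (F i)) p ∧
          (hasseWitt (W i) (m i) p (map (Ideal.Quotient.mk M) (F i))).det ≠ 0 :=
  final2 V W hW m hm f hf hs G χ hχ e he B hB D f₀ hf₀ hbig A hA F hF c hc

end Pool.Agent.Results.MP_adc574_ag.OrdinaryHypersurfaces
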