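import Mathlib
import Pool.Agent.H19.Ord.Main

/-!
# Dense ordinary reduction from the period matrices in characteristic zero

Let `k` be an algebraically closed field of characteristic `0` and `X : f = 0` a quasismooth weighted
homogeneous hypersurface of weighted degree `m` in a weighted projective space over `k`: for example a
smooth plane curve, a curve `y ^ a = f(x)`, a smooth surface in `P³`, a surface `w ^ a = f(x, y, z)`.
The forms `x ^ g Ω / (x_1 ⋯ x_r f ^ k)` (`Forms W m`: `k ≥ 1`, `g` with positive coordinates and of weighted
degree `k m`) generate the cohomology `H` of the complement of `X`, i.e. the primitive cohomology of `X`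
in the middle degree; the forms with `k = 1` (`Exps W m`) are a basis of the space of the regular forms
`H^0(X, Ω^d)`, `d = dim X`. A torus element or a diagonal group with character group `G` acts if the
variables have weights `χ v ∈ G` such that the exponents of `f` have weight `0`; so `H` is the sum of its
eigenspaces `H_c`, `c ∈ G`.

Let `B ⊂ k` be a finitely generated ring which contains the coefficients of `f`, with derivations `D_j`
(for example a basis of the derivations of its field of fractions, times a denominator). The periods of
the forms over a horizontal cycle are functions `ψ(k, g)` with values in a field with derivations which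
contains `B`; they satisfy the relations `IsPeriod`: exact forms have period `0` (Griffiths), and
differentiation under the integral sign. These are all relations: the solutions `ψ` in a field `F` are the
horizontal elements of the dual of `H ⊗ F` for the Gauss-Manin connection. Let `r_c` be the
number of the regular forms in `H_c`. The condition `NonvanishingPeriods` is that the `r_c × r_c` matrix of
`r_c` linearly independent period functions on `H_c` (in any field with derivations) on the regular forms in
`H_c` is always invertible.

**Theorem.** Let `X_i` be finitely many such hypersurfaces (for which the exponent of the groups `G`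
divides `e`) with `NonvanishingPeriods`. For every finitely generated ring `A ⊂ k` over which the equations
of the `X_i` are defined, every `c ≠ 0` in `A` and every large prime number `p ≡ 1 mod e` there is a
closed point of `Spec A` of characteristic `p` with `c ≠ 0` at which the Hasse-Witt matrices of all the
`X_i` are invertible.

The Hasse-Witt matrix is the matrix of Frobenius on `H^d(X_s, O)`. A smooth projective curve is ordinary if
and only if it is invertible, and the same is true for smooth surfaces with `H^1(O) = 0` (ordinary in the
sense of Bloch and Kato). So products of such curves and surfaces have dense ordinary reduction.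

**Big monodromy.** If `V` is the space of all solutions on `H_c` over a Picard-Vessiot extension and
`M ⊂ GL(V)` the differential Galois group, which is the Zariski closure of the monodromy group, the
determinant of `r_c` solutions which span `S ⊂ V` vanishes only if `g S` meets the annihilator `T` of the
regular forms, of codimension `r_c`, for all `g ∈ M`. This is impossible if `M` contains `Sp(V)`, `O(V)`
or `SL(V)`: a product of transvections or reflections in vectors outside of `S + T` moves `S` away from `T`.
So `NonvanishingPeriods` holds for all families with such a monodromy group on each `H_c`, `r_c > 0`, for
example for the generic member of each Lefschetz pencil of plane curves of degree `m`, or of surfaces of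
degree `m` in `P³`, over the algebraic numbers. It holds as well if `H_c` consists of regular forms.

Proof. Let `Q` be a prime ideal of `B` over `p` such that `p` generates the maximal ideal of `B_Q`; such `Q`
exist for all large `p` outside of a given hypersurface (`Good.lean`). The derivations `D_j` act on the
residue field `κ(Q)`. In characteristic `p` the functions `ψ_u(k, g) = - c_u / (p - k)!`, where `c_u` is the
coefficient of `x ^ (p u)` in `x ^ g f ^ (p - k)`, are period functions with values in `κ(Q)`, because
`p u` is killed by all derivations (`Frob.lean`); on the regular forms they are the Hasse-Witt
matrix. They are linearly independent, already on the forms with poles of bounded order, by the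
reduction of the order of the poles (`Red.lean`, `Jac.lean`), as `ψ_u(p, p w) = - δ_uw`. If the
Hasse-Witt matrix is singular for infinitely many `p`, an ultraproduct of the fields `κ(Q)` is a
differential field of characteristic `0` which contains `B`, with independent period functions whose
matrix on the regular forms is singular (`Limit.lean`). So the matrix is invertible at the generic
points of large characteristic, and the theorem of Chevalley and the Jacobson property give the closed
points (`Main.lean`).
-/

set_option autoImplicit false

namespace Pool.Agent.Results.MP_adc574_ag.PeriodDeterminants

open MvPolynomial Pool.Agent.H19.Ord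

universe u

/-- **Dense ordinary reduction of hypersurfaces with invertible period matrices.** -/
theorem result {k : Type u} [Field k] [CharZero k] [IsAlgClosed k]
    -- finitely many quasismooth weighted homogeneous equations
    {ι : Type} [Finite ι] (V : ι → Type) [∀ i, Fintype (V i)] [∀ i, DecidableEq (V i)]
    (W : ∀ i, V i → ℕ) (hW : ∀ i v, 0 < W i v) (m : ι → ℕ) (hm : ∀ i, 1 ≤ m i)
    (f : ∀ i, MvPolynomial (V i) k) (hf : ∀ i, ∀ a ∈ (f i).support, ∑ v, W i v * a v = m i)
    (hs : ∀ i, ∀ x : V i → k, (∀ v, eval x (pderiv v (f i)) = 0) → x = 0)
    -- the symmetries: weights in a group of exponent `e`
    (G : ι → Type) [∀ i, AddCommGroup (G i)] (χ : ∀ i, V i → G i)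
    (hχ : ∀ i, ∀ a ∈ (f i).support, gdeg (χ i) a = 0) (e : ℕ) (he : ∀ i (c : G i), e • c = 0)
    -- a finitely generated ring with derivations, over which the period matrices are invertible
    (B : Subalgebra ℤ k) (hB : B.FG) {J : Type} (D : J → Derivation ℤ B B)
    (f₀ : ∀ i, MvPolynomial (V i) B) (hf₀ : ∀ i, map (algebraMap B k) (f₀ i) = f i)
    (hP : ∀ i, NonvanishingPeriods (W i) (m i) (f₀ i) D (χ i))
    -- a finitely generated ring over which the hypersurfaces are defined, a nonempty open set
    (A : Subalgebra ℤ k) (hA : A.FG) (F : ∀ i, MvPolynomial (V i) A)
    (hF : ∀ i, map (algebraMap A k) (F i) = f i) (c : A) (hc : c ≠ 0) :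
    ∃ N : ℕ, ∀ p : ℕ, N ≤ p → p.Prime → p ≡ 1 [MOD e] →
      ∃ M : Ideal A, M.IsMaximal ∧ (p : A) ∈ M ∧ c ∉ M ∧
        ∀ i, (hasseWitt (W i) (m i) p (map (Ideal.Quotient.mk M) (F i))).det ≠ 0 :=
  final V W hW m hm f hf hs G χ hχ e he B hB D f₀ hf₀ hP A hA F hF c hc

end Pool.Agent.Results.MP_adc574_ag.PeriodDeterminants
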